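import Pool.Agent.U47.AC.Core

/-!
# Gap d-to-1 Label Cover is not hard under constant-depth reductions

Circuits (`Circuit`, `nodeVal`, `nodeDepth`) are defined in `Pool/Agent/H568R2/Defs.lean`: they have
NOT gates and AND and OR gates of unbounded fan-in, and `size` is the number of gates.

A many-one reduction from a function `f` of `N` bits to the gap problem for d-to-1 Label Cover, value
one against value less than `ε < 1`, which is computed by circuits of constant depth, needs
exponential size, `exp (Ω (X ^ (1 / (h + 1))))` up to the factor `N`, where
`X = (1 - ε) * (average sensitivity of f)`. This holds for all `d`, all alphabet sizes `R`, every size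
of the instance, nonuniform circuits, and also if the reduction is correct only on a set `D` of
inputs; then the average sensitivity is taken inside of `D`. So only functions of small average
sensitivity, as those computed by circuits of constant depth, have such reductions. In particular,
for a randomised reduction from parity (to which all but the bits in `P` are random bits) which is
correct with probability `1 - γ > 1 / 2`, even only on average over the inputs, this applies with
`X = (1 - ε) (1 - 2 γ) |P|`.

Parity is in `NP`, and `NP`-hardness proofs which do not produce a gap usually are reductions of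
constant depth. For instance, for `d ≥ 2` to tell value one from value less than one is `NP`-hard
under such reductions if `R ≥ 3` (for the 3-colourability of graphs: the edges of the graph are right
vertices, with the six pairs of different colours as labels). So the gap in the conjecture cannot be
produced at constant depth, for any `d`, `ε < 1` and `R`.

Idea of the proof. An instance of value one and an instance of value less than `ε` differ in at least
a fraction `1 - ε` of the edges. Under a random restriction which leaves a fraction `(24 s) ^ (- h)`
of the variables free, all bits of the encoding become decision trees of depth `s`, except with a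
probability of less than `1 / N`. So for every input at most `s` of the free variables are sensitive
for a given edge, and hence at most `s / (1 - ε)` of the free variables are sensitive for `f`. The
input which consists of the restriction and of random values for the free variables is uniformly
random and independent of the set of the free variables; so the expected number of free sensitive
variables is `(24 s) ^ (- h)` times the average sensitivity of `f`.
-/

set_option autoImplicit false

namespace Pool.Agent.Results.MP_62e2f2_lc.ConstantDepthReductions

open Finset DomAC0

/-- The input `x` with the bit `i` flipped. -/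
def flipBit {N : ℕ} (i : Fin N) (x : Fin N → Bool) : Fin N → Bool := Function.update x i (!(x i))

open Classical in
/-- The average sensitivity of `f` inside of `D`: the average over all inputs `x` (in `D` or not) of
the number of the bits `i` such that `x` and `flipBit i x` belong to `D` and `f` has different
values there. -/
noncomputable def averageSensitivity {N : ℕ} (D : Finset (Fin N → Bool))
    (f : (Fin N → Bool) → Bool) : ℝ :=
  (∑ x : Fin N → Bool, ((univ.filter fun i : Fin N =>
    x ∈ D ∧ flipBit i x ∈ D ∧ f x ≠ f (flipBit i x)).card : ℝ)) / 2 ^ N

/-- The maps from the right labels to the left labels: every fibre has at most `d` elements. -/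
abbrev Projection (d R : ℕ) : Type :=
  {π : Fin (d * R) → Fin R // ∀ a, (univ.filter fun b => π b = a).card ≤ d}

/-- The edges of an instance: a left vertex, a right vertex and a map of the labels. -/
abbrev Constraint (V W : Type) (d R : ℕ) : Type := V × W × Projection d R

/-- The labeling `L` of the left and `M` of the right vertices satisfies the edge. -/
def Satisfies {V W : Type} {d R : ℕ} (L : V → Fin R) (M : W → Fin (d * R))
    (c : Constraint V W d R) : Prop :=
  c.2.2.1 (M c.2.1) = L c.1

/-- The instance with the list of edges `g` has value one. -/
def ValueOne {V W E : Type} {d R : ℕ} (g : E → Constraint V W d R) : Prop :=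
  ∃ (L : V → Fin R) (M : W → Fin (d * R)), ∀ e, Satisfies L M (g e)

open Classical in
/-- The instance with the list of edges `g` has value less than `ε`. -/
def ValueBelow {V W E : Type} {d R : ℕ} [Fintype E] (ε : ℝ) (g : E → Constraint V W d R) : Prop :=
  ∀ (L : V → Fin R) (M : W → Fin (d * R)),
    ((univ.filter fun e => Satisfies L M (g e)).card : ℝ) < ε * Fintype.card E

/-- The circuit `C` computes the instances `inst x`: for all edges `e` and all possible constraints
`c` the node `out e c`, of depth at most `h`, tells whether the edge `e` of the instance is `c`. -/
structure Computes {N : ℕ} {V W E : Type} {d R : ℕ} (C : Circuit (Fin N)) (h : ℕ)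
    (inst : (Fin N → Bool) → E → Constraint V W d R)
    (out : E → Constraint V W d R → Fin N ⊕ Fin C.size) : Prop where
  depth : ∀ e c, C.nodeDepth (out e c) ≤ h
  value : ∀ x e c, C.nodeVal x (out e c) = true ↔ inst x e = c

/-- The map `inst` is correct on the inputs in `D`, as a many-one reduction from `f` to the gap
problem: `true` goes to value one and `false` goes to value less than `ε`. -/
def CorrectOn {N : ℕ} {V W E : Type} {d R : ℕ} [Fintype E] (D : Finset (Fin N → Bool))
    (f : (Fin N → Bool) → Bool) (ε : ℝ) (inst : (Fin N → Bool) → E → Constraint V W d R) : Prop :=
  ∀ x ∈ D, (f x = true → ValueOne (inst x)) ∧ (f x = false → ValueBelow ε (inst x))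

/-- For every depth `h` there is `X₀ > 0` such that the following holds for all `d`, `R`, all circuits
`C` with `N` inputs which compute, at depth `h`, for every input a d-to-1 Label Cover instance with
the (nonempty) list of edges `E` and the alphabets `Fin R` and `Fin (d * R)`, and for all
`0 ≤ ε < 1`.
(1) If the instances are correct on `D` for a function `f`, and if
`X = (1 - ε) * averageSensitivity D f ≥ X₀`, then
`(number of gates) * N ≥ 2 ^ (X ^ (1 / (h + 1)) / 100)`.
(2) Let `P` be a set of inputs (the others may be random bits) and suppose that for all but
`γ 2 ^ N` inputs `x` the instance of `x` has value one if the number of ones in `P` is even, and value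
less than `ε` if it is odd. If `X = (1 - ε) * (1 - 2 * γ) * |P| ≥ X₀` then
`(number of gates) * N ≥ 2 ^ (X ^ (1 / (h + 1)) / 100)`. -/
theorem result (h : ℕ) : ∃ X₀ : ℝ, 0 < X₀ ∧ ∀ (N : ℕ) (C : Circuit (Fin N)) (V W E : Type)
    (d R : ℕ) [Fintype E] [Nonempty E] (inst : (Fin N → Bool) → E → Constraint V W d R)
    (out : E → Constraint V W d R → Fin N ⊕ Fin C.size) (ε : ℝ),
    Computes C h inst out → 0 ≤ ε → ε < 1 →
    (∀ (D : Finset (Fin N → Bool)) (f : (Fin N → Bool) → Bool), CorrectOn D f ε inst →
      X₀ ≤ (1 - ε) * averageSensitivity D f →
      (2 : ℝ) ^ (((1 - ε) * averageSensitivity D f) ^ (1 / (h + 1 : ℝ)) / 100) ≤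
        C.size * N) ∧
    (∀ (P : Finset (Fin N)) (D : Finset (Fin N → Bool)) (γ : ℝ),
      ((Dᶜ).card : ℝ) ≤ γ * 2 ^ N →
      CorrectOn D (fun x => decide (Even (P.filter fun i => x i = true).card)) ε inst →
      X₀ ≤ (1 - ε) * ((1 - 2 * γ) * P.card) →
      (2 : ℝ) ^ (((1 - ε) * ((1 - 2 * γ) * P.card)) ^ (1 / (h + 1 : ℝ)) / 100) ≤
        C.size * N) := by
  classical
  obtain ⟨X₀, hX0, hX⟩ := Pool.Agent.U47.AC.main h
  refine ⟨X₀, hX0, ?_⟩
  intro N C V W E d R _ _ inst out ε hcomp hε hε1
  have hsens : ∀ (D : Finset (Fin N → Bool)) (f : (Fin N → Bool) → Bool),
      averageSensitivity D f = Pool.Agent.U47.AC.avgSens D f := by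
    intro D f
    unfold averageSensitivity Pool.Agent.U47.AC.avgSens
    congr 1
    refine sum_congr rfl fun x _ => ?_
    congr 2
    ext i
    rw [mem_filter, mem_filter]
    exact Iff.rfl
  have part1 : ∀ (D : Finset (Fin N → Bool)) (f : (Fin N → Bool) → Bool),
      CorrectOn D f ε inst → X₀ ≤ (1 - ε) * averageSensitivity D f →
      (2 : ℝ) ^ (((1 - ε) * averageSensitivity D f) ^ (1 / (h + 1 : ℝ)) / 100) ≤
        C.size * N := by
    intro D f hD hXf
    rw [hsens] at hXf ⊢
    have key := hX C inst out (fun (l : (V → Fin R) × (W → Fin (d * R))) c => Satisfies l.1 l.2 c)
      0 ε D f Fintype.card_pos hcomp.depth hcomp.value le_rfl hε (by linarith) ?_ ?_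
      (by simpa using hXf)
    · simpa using key
    · intro x hx hfx
      obtain ⟨L, M, hLM⟩ := (hD x hx).1 hfx
      refine ⟨(L, M), ?_⟩
      rw [Finset.filter_true_of_mem (fun e _ => hLM e), card_univ]
      simp
    · intro x hx hfx l
      exact ((hD x hx).2 hfx l.1 l.2).le
  refine ⟨part1, ?_⟩
  intro P D γ hDc hD hXP
  have hg : 0 < 1 - ε := by linarith
  have hs := Pool.Agent.U47.AC.parity_sens P D
    (fun x => decide (Even (P.filter fun i => x i = true).card)) γ (by
      refine le_trans (le_of_eq ?_) hDc
      congr 2
      ext x
      simp) (by
      intro x _
      rw [decide_eq_true_iff, Nat.not_odd_iff_even])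
  rw [← hsens] at hs
  have hle := mul_le_mul_of_nonneg_left hs hg.le
  refine le_trans ?_ (part1 D _ hD (hXP.trans hle))
  apply Real.rpow_le_rpow_of_exponent_le (by norm_num)
  apply div_le_div_of_nonneg_right _ (by norm_num)
  exact Real.rpow_le_rpow (hX0.le.trans hXP) hle (by positivity)

end Pool.Agent.Results.MP_62e2f2_lc.ConstantDepthReductions
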