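import Pool.Agent.H16DG.Circ

/-!
# The relabelings of every d-to-1 game are hard for decomposable circuits

A circuit (`Pool/Agent/U20/DN/Defs.lean`) has leaves which test one variable each, conjunctions of
two gates and disjunctions of arbitrarily many gates; it is decomposable (a DNNF) if no variable
occurs below both gates of a conjunction. An input is accepted if there is a proof tree (`Acc`).
The model contains the nondeterministic read-once branching programs.

The inputs are d-to-1 games (`Pool/Agent/H16DG/Defs.lean`) on `n + n` vertices whose edges are all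
pairs; the vertices of one side have `d R` labels, those of the other side `R` labels, here the
elements of finite abelian groups `A` and `B`; the constraint of an edge is a map of `A` to `B` for
which each element has at most (hence exactly) `d` preimages. The variables are the edges, their
values the maps.

1. Let `w` be any d-to-1 game, for instance one of value `1`, and `0 < η ≤ 1`. A decomposable circuit
which accepts all relabelings of `w` (at each vertex the labels are shifted by an element of the
group) and rejects all d-to-1 games of value at most `1 / R + η` has at least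
`exp (η ^ 14 n / (2 ^ 42 (d ^ 2 R) ^ 3))` gates, if `n ≥ 2 ^ 18 d ^ 2 R / η ^ 6`. It also holds, up to
the factor `2 ^ μ`, for random circuits which never accept a game of value at most `1 / R + η` and
accept each relabeling of `w` with probability at least `2 ^ (- μ)`.
2. The relabelings of `w` are d-to-1 games with the same optimum.
3. The trivial circuit, which guesses the labeling, has `(d R) ^ n R ^ n (2 n ^ 2 + 1) + 1` gates and
accepts exactly the games of value `1`.
4. No game has value less than `1 / R`. So all gaps and alphabets are covered.

Proof of (1): Decomposable circuits with `s` gates contain, for any family of accepted inputs, a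
product set with respect to a partition of the edges into `t` parts of at most `2 θ` edges which
contains a fraction `s ^ (- 2 t)` of the family (`U20.DN`). We show that a mixture of `t` independent
random relabelings of `w`, the `k`-th one on the `k`-th part, has value at most `1 / R + η` except
with probability `exp (- η ^ 2 n / (32 t))`. The kernel `g (x, y) = 1_{π x = y} - 1 / R` of a d-to-1
map `π` has row sums and column sums `0`. By Cauchy-Schwarz, applied twice, the fourth power of the
excess over `n ^ 2 / R` of the number of edges satisfied by a labeling is at most `n ^ 4` times the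
sum of the products of kernels over the four-cycles of vertices with labels (`form_four`). Unless
the four-cycle is degenerate or two opposite edges are in the same part, the mean of such a product
is `0`. This bounds the mean of the value of the mixture. The value has bounded differences, since
the labels of one vertex in one part concern `2 n` edges only.
-/

set_option autoImplicit false

namespace Pool.Agent.Results.MP_62e2f2_lc.DecomposableCircuits

open Pool.Agent.U20.DN Pool.Agent.H16DG

theorem result (d : ℕ) (hd1 : 1 ≤ d) (A B : Type) [AddCommGroup A] [AddCommGroup B] [Fintype A]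
    [Fintype B] (hAB : Fintype.card A = d * Fintype.card B) :
    (∀ (n : ℕ) (η : ℝ), 0 < η → η ≤ 1 →
      2 ^ 18 * ((d : ℝ) ^ 2 * Fintype.card B) / η ^ 6 ≤ (n : ℝ) →
      ∀ w : Fin n × Fin n → A → B, FibersAtMost d w →
      ∀ (μ : ℕ) (R : Type) [Fintype R] [Nonempty R] (I : R → Type) [∀ ρ, Fintype (I ρ)]
        (G : ∀ ρ, I ρ → Gate (Fin n × Fin n) (A → B) (I ρ)) (r : ∀ ρ, I ρ),
        (∀ ρ, Decomposable (G ρ)) →
        (∀ ρ x, FibersAtMost d x → ValueAtMost (1 / (Fintype.card B : ℝ) + η) x →
          ¬ Acc (G ρ) x (r ρ)) →
        (∀ (α : Fin n → A) (β : Fin n → B),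
          Nat.card R ≤ 2 ^ μ * Nat.card {ρ // Acc (G ρ) (relabel w α β) (r ρ)}) →
        ∃ ρ, Real.exp (η ^ 14 * n / (2 ^ 42 * ((d : ℝ) ^ 2 * Fintype.card B) ^ 3)) ≤
          2 ^ μ * (Fintype.card (I ρ) : ℝ)) ∧
    (∀ (n : ℕ) (w : Fin n × Fin n → A → B) (α : Fin n → A) (β : Fin n → B),
      (FibersAtMost d w → FibersAtMost d (relabel w α β)) ∧
        ∀ k, Optimum k (relabel w α β) ↔ Optimum k w) ∧
    (∀ n : ℕ,
      ∃ (I : Type) (_ : Fintype I) (G : I → Gate (Fin n × Fin n) (A → B) I) (r : I),
        Decomposable G ∧
          Fintype.card I =
            (d * Fintype.card B) ^ n * Fintype.card B ^ n * (2 * n ^ 2 + 1) + 1 ∧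
          ∀ x, Acc G x r ↔ ∃ (L : Fin n → A) (R : Fin n → B), ∀ e, Sat x L R e) ∧
    (∀ (n : ℕ) (δ : ℝ), 1 ≤ n → δ < 1 / (Fintype.card B : ℝ) →
      ∀ x : Fin n × Fin n → A → B, ¬ ValueAtMost δ x) := by
  classical
  have hB : (0 : ℝ) < Fintype.card B := Nat.cast_pos.2 Fintype.card_pos
  have hd0 : (0 : ℝ) < d := by exact_mod_cast hd1
  have hA : (Fintype.card A : ℝ) = d * Fintype.card B := by exact_mod_cast hAB
  have e1 : (d : ℝ) / (Fintype.card A : ℝ) = 1 / (Fintype.card B : ℝ) := by
    rw [hA]
    field_simp
  have e2 : (Fintype.card A : ℝ) * d = (d : ℝ) ^ 2 * Fintype.card B := by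
    rw [hA]
    ring
  refine ⟨fun n η hη hη1 hn w hw μ R _ _ I _ G r hd hno hyes => ?_,
    fun n w α β => ⟨fun hw => ?_, relabel_optimum w α β⟩, fun n => ?_,
    fun n δ hn hδ x => value_ge hn hδ x⟩
  · have h1 := lower hη hη1 hd1 (by rw [e2]; exact hn) w hw μ R I G r hd
      (fun ρ x hx hv => hno ρ x hx (by rwa [e1] at hv)) hyes
    rwa [e2] at h1
  · exact fibers_relabel hw (fun _ => ()) (fun _ => fun i => (α i, β i))
  · rw [← hAB]
    exact upper n

end Pool.Agent.Results.MP_62e2f2_lc.DecomposableCircuits
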