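import Pool.Agent.H16DG.Tensor

/-!
# The relabelings of every d-to-1 game are hard for read-once tensor networks

A tree tensor network `Net K V A W` (`Pool/Agent/TH700/PA/Defs.lean`) has leaves that read one
variable with a vector in `K ^ W` for each value; an inner node combines the vectors of its two
children by an arbitrary bilinear map. It accepts the input `x` if a linear form of the vector of
the root is not zero. The field `K` and the weights are arbitrary, so there may be cancellations.
The tree is arbitrary. The bond dimension is `card W`.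

The inputs are d-to-1 games (`Pool/Agent/H16DG/Defs.lean`) on `n + n` vertices whose edges are all
pairs; the vertices of one side have `d R` labels, those of the other side `R` labels, here the
elements of finite abelian groups `A` and `B`; the constraint of an edge is a map of `A` to `B` for
which each element has at most (hence exactly) `d` preimages. The variables are the edges, their
values the maps.

1. Let `w` be any d-to-1 game, for instance one of value `1`, and `0 < η ≤ 1`. A network which reads
each edge at most once, is not zero on all relabelings of `w` (at each vertex the labels are shifted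
by an element of the group) and zero on all d-to-1 games of value at most `1 / R + η` has bond
dimension at least `exp (η ^ 10 n / (2 ^ 32 (d ^ 2 R) ^ 2))`, if `n ≥ 2 ^ 43 (d ^ 2 R) ^ 3 / η ^ 14`;
the number of nodes is arbitrary. The bound also holds, up to the factor `2 ^ μ`, for random networks
which are zero on games of value at most `1 / R + η` and are not zero on each relabeling of `w` with
probability at least `2 ^ (- μ)`.
2. The relabelings of `w` are d-to-1 games with the same optimum.
3. There is a linear network over `ℚ` with `2 n ^ 2 - 1` nodes and bond dimension `(d R) ^ n R ^ n`,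
which reads each edge once and is not zero exactly on the games of value `1`.

The lemmas on networks (partition, rank, replacement) are those of `TH700.PA`. New is that mixtures
of independent random relabelings of one arbitrary game have value at most `1 / R + η` with high
probability, for all `d` and `R` (`H16DG`, see `DecomposableCircuits`); no game has value less than
`1 / R`, so all gaps are covered.
-/

set_option autoImplicit false

namespace Pool.Agent.Results.MP_62e2f2_lc.RelabeledNetworks

open Pool.Agent.H16DG
open Pool.Agent.TH700.PA (Net)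

theorem result (d : ℕ) (hd1 : 1 ≤ d) (A B : Type) [AddCommGroup A] [AddCommGroup B] [Fintype A]
    [Fintype B] (hAB : Fintype.card A = d * Fintype.card B) :
    (∀ (n : ℕ) (η : ℝ), 0 < η → η ≤ 1 →
      2 ^ 43 * ((d : ℝ) ^ 2 * Fintype.card B) ^ 3 / η ^ 14 ≤ (n : ℝ) →
      ∀ w : Fin n × Fin n → A → B, FibersAtMost d w →
      ∀ (μ : ℕ) (R : Type) [Fintype R] [Nonempty R] (K W : R → Type) [∀ ρ, Field (K ρ)]
        [∀ ρ, Fintype (W ρ)] (T : ∀ ρ, Net (K ρ) (Fin n × Fin n) (A → B) (W ρ))
        (c : ∀ ρ, W ρ → K ρ),
        (∀ ρ e, (T ρ).reads e ≤ 1) →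
        (∀ ρ x, FibersAtMost d x → ValueAtMost (1 / (Fintype.card B : ℝ) + η) x →
          (T ρ).value (c ρ) x = 0) →
        (∀ (α : Fin n → A) (β : Fin n → B),
          Nat.card R ≤ 2 ^ μ * Nat.card {ρ // (T ρ).value (c ρ) (relabel w α β) ≠ 0}) →
        ∃ ρ, Real.exp (η ^ 10 * n / (2 ^ 32 * ((d : ℝ) ^ 2 * Fintype.card B) ^ 2)) ≤
          2 ^ μ * (Fintype.card (W ρ) : ℝ)) ∧
    (∀ (n : ℕ) (w : Fin n × Fin n → A → B) (α : Fin n → A) (β : Fin n → B),
      (FibersAtMost d w → FibersAtMost d (relabel w α β)) ∧
        ∀ k, Optimum k (relabel w α β) ↔ Optimum k w) ∧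
    (∀ n : ℕ, 1 ≤ n →
      ∃ (W : Type) (_ : Fintype W) (T : Net ℚ (Fin n × Fin n) (A → B) W) (c : W → ℚ),
        Fintype.card W = (d * Fintype.card B) ^ n * Fintype.card B ^ n ∧
        T.Linear ∧ (∀ e, T.reads e = 1) ∧ T.size = 2 * n ^ 2 - 1 ∧
          ∀ x, T.value c x ≠ 0 ↔ ∃ (L : Fin n → A) (R : Fin n → B), ∀ e, Sat x L R e) := by
  classical
  have hB : (0 : ℝ) < Fintype.card B := Nat.cast_pos.2 Fintype.card_pos
  have hd0 : (0 : ℝ) < d := by exact_mod_cast hd1
  have hA : (Fintype.card A : ℝ) = d * Fintype.card B := by exact_mod_cast hAB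
  have e1 : (d : ℝ) / (Fintype.card A : ℝ) = 1 / (Fintype.card B : ℝ) := by
    rw [hA]
    field_simp
  have e2 : (Fintype.card A : ℝ) * d = (d : ℝ) ^ 2 * Fintype.card B := by
    rw [hA]
    ring
  refine ⟨fun n η hη hη1 hn w hw μ R _ _ K W _ _ T c h1 hno hyes => ?_,
    fun n w α β => ⟨fun hw => ?_, relabel_optimum w α β⟩, fun n hn => ?_⟩
  · have h2 := lower_net hη hη1 hd1 (by rw [e2]; exact hn) w hw μ R K W T c h1
      (fun ρ x hx hv => hno ρ x hx (by rwa [e1] at hv)) hyes
    rwa [e2] at h2
  · exact fibers_relabel hw (fun _ => ()) (fun _ => fun i => (α i, β i))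
  · rw [← hAB]
    exact upper_net hn

end Pool.Agent.Results.MP_62e2f2_lc.RelabeledNetworks
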